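import Mathlib

/-!
Numbers `re ((x + y √d) ^ 2 ^ i)` and primes `p` with `p + 1` or `p - 1` a power of two.
-/

namespace Pool.Agent.H145R2.MD

open Polynomial

section
variable (p : ℕ) [hpf : Fact p.Prime] (d : ℤ)

/-- the quadratic extension ring of `ZMod p` -/
abbrev R : Type := AdjoinRoot (X ^ 2 - C (d : ZMod p) : (ZMod p)[X])

lemma deg_ne : (X ^ 2 - C (d : ZMod p) : (ZMod p)[X]).degree ≠ 0 := by
  rw [Polynomial.degree_X_pow_sub_C (by norm_num)]
  norm_num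

lemma inj : Function.Injective (AdjoinRoot.of (X ^ 2 - C (d : ZMod p) : (ZMod p)[X])) :=
  AdjoinRoot.of.injective_of_degree_ne_zero (deg_ne p d)

instance : CharP (R p d) p := charP_of_injective_ringHom (inj p d) p

/-- the root -/
noncomputable def s : R p d := AdjoinRoot.root _

lemma s_mul : s p d * s p d = (d : R p d) := by
  have h := AdjoinRoot.eval₂_root (X ^ 2 - C (d : ZMod p) : (ZMod p)[X])
  rw [eval₂_sub, eval₂_pow, eval₂_X, eval₂_C, map_intCast] at h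
  have h2 : s p d ^ 2 - (d : R p d) = 0 := h
  linear_combination h2

lemma int_pow (x : ℤ) : (x : R p d) ^ p = x := by
  have h : ((x : ZMod p)) ^ p = (x : ZMod p) := ZMod.pow_card _
  have h2 := congrArg (AdjoinRoot.of (X ^ 2 - C (d : ZMod p) : (ZMod p)[X])) h
  rw [map_pow, map_intCast] at h2
  exact h2

lemma s_pow (hp2 : p ≠ 2) : s p d ^ p = (legendreSym p d : R p d) * s p d := by
  have hodd : p % 2 = 1 := (Nat.Prime.eq_two_or_odd hpf.out).resolve_left hp2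
  have h : p = 2 * (p / 2) + 1 := by omega
  have h1 : s p d ^ p = (s p d * s p d) ^ (p / 2) * s p d := by
    have h6 : s p d ^ p = s p d ^ (2 * (p / 2) + 1) := congrArg (fun n => s p d ^ n) h
    rw [h6, pow_succ (s p d), pow_mul, pow_two (s p d)]
  rw [h1, s_mul]
  have h3 := legendreSym.eq_pow p d
  have h4 := congrArg (AdjoinRoot.of (X ^ 2 - C (d : ZMod p) : (ZMod p)[X])) h3
  rw [map_pow, map_intCast, map_intCast] at h4
  have h5 : (legendreSym p d : R p d) = (d : R p d) ^ (p / 2) := h4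
  rw [h5]

lemma frob (hp2 : p ≠ 2) (x y : ℤ) :
    ((x : R p d) + y * s p d) ^ p = x + (legendreSym p d : R p d) * (y * s p d) := by
  rw [add_pow_char, mul_pow, int_pow, int_pow, s_pow p d hp2]
  ring

lemma sum_conj (x y : ℤ) (n : ℕ) :
    ((x : R p d) + y * s p d) ^ n + ((x : R p d) - y * s p d) ^ n
      = ((2 * ((⟨x, y⟩ : ℤ√d) ^ n).re : ℤ) : R p d) := by
  set φ : ℤ√d →+* R p d := Zsqrtd.lift ⟨s p d, s_mul p d⟩ with hφ
  have h1 : φ ⟨x, y⟩ = (x : R p d) + y * s p d := by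
    rw [hφ, Zsqrtd.lift_apply_apply]
  have h2 : φ (star ⟨x, y⟩) = (x : R p d) - y * s p d := by
    rw [hφ, Zsqrtd.lift_apply_apply]
    simp
    ring
  rw [← h1, ← h2, ← map_pow, ← map_pow, ← star_pow, hφ, Zsqrtd.lift_apply_apply,
    Zsqrtd.lift_apply_apply, Zsqrtd.re_star, Zsqrtd.im_star]
  push_cast
  ring

lemma dvd_of_eq (hp2 : p ≠ 2) (hd : ¬ (p : ℤ) ∣ d) (x y : ℤ) (hy : ¬ (p : ℤ) ∣ y) (q : ℕ)
    (h : ((x : R p d) + y * s p d) ^ 2 ^ q = ((x : R p d) - y * s p d) ^ 2 ^ q) :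
    ∃ i < q, (p : ℤ) ∣ ((⟨x, y⟩ : ℤ√d) ^ 2 ^ i).re := by
  have h1 := pow_two_pow_sub_pow_two_pow (x := (x : R p d) + y * s p d)
    (y := (x : R p d) - y * s p d) q
  rw [sub_eq_zero.mpr h] at h1
  have h2 : (((∏ i ∈ Finset.range q, (2 * ((⟨x, y⟩ : ℤ√d) ^ 2 ^ i).re)) * (2 * y * d) : ℤ) : R p d)
      = 0 := by
    push_cast
    have h3 : ∀ i ∈ Finset.range q, ((x : R p d) + y * s p d) ^ 2 ^ i
        + ((x : R p d) - y * s p d) ^ 2 ^ i = 2 * ((((⟨x, y⟩ : ℤ√d) ^ 2 ^ i).re : ℤ) : R p d) := by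
      intro i _
      rw [sum_conj]
      push_cast
      ring
    rw [Finset.prod_congr rfl h3] at h1
    have h4 := s_mul p d
    linear_combination (-(s p d)) * h1 + (-(∏ i ∈ Finset.range q,
      (2 * ((((⟨x, y⟩ : ℤ√d) ^ 2 ^ i).re : ℤ) : R p d))) * 2 * y) * h4
  have h5 : (p : ℤ) ∣ (∏ i ∈ Finset.range q, (2 * ((⟨x, y⟩ : ℤ√d) ^ 2 ^ i).re)) * (2 * y * d) :=
    (CharP.intCast_eq_zero_iff (R p d) p _).mp h2
  have hpp : Prime (p : ℤ) := Nat.prime_iff_prime_int.mp hpf.out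
  have hp2' : ¬ (p : ℤ) ∣ 2 := by
    intro hc
    have h6 : p ∣ 2 := by exact_mod_cast hc
    exact hp2 ((Nat.prime_dvd_prime_iff_eq hpf.out Nat.prime_two).mp h6)
  rcases hpp.dvd_or_dvd h5 with h6 | h6
  · rw [hpp.dvd_finsetProd_iff] at h6
    obtain ⟨i, hi, hi2⟩ := h6
    rcases hpp.dvd_or_dvd hi2 with h7 | h7
    · exact absurd h7 hp2'
    · exact ⟨i, Finset.mem_range.mp hi, h7⟩
  · rcases hpp.dvd_or_dvd h6 with h7 | h7
    · rcases hpp.dvd_or_dvd h7 with h8 | h8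
      · exact absurd h8 hp2'
      · exact absurd h8 hy
    · exact absurd h7 hd

/-- `p + 1` a power of two, `d` a nonresidue. -/
theorem exists_dvd_of_add_one (hp2 : p ≠ 2) (hd : legendreSym p d = -1) (q : ℕ)
    (hq : p + 1 = 2 ^ q) (x y : ℤ) (hy : ¬ (p : ℤ) ∣ y) :
    ∃ i < q, (p : ℤ) ∣ ((⟨x, y⟩ : ℤ√d) ^ 2 ^ i).re := by
  have hd0 : ¬ (p : ℤ) ∣ d := by
    intro hc
    have : legendreSym p d = 0 := by
      rw [legendreSym.eq_zero_iff]
      exact (ZMod.intCast_zmod_eq_zero_iff_dvd d p).mpr hc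
    rw [this] at hd
    norm_num at hd
  apply dvd_of_eq p d hp2 hd0 x y hy q
  have h1 := frob p d hp2 x y
  have h2 := frob p d hp2 x (-y)
  rw [hd] at h1 h2
  push_cast at h1 h2
  rw [← hq, pow_succ ((x : R p d) + y * s p d) p, pow_succ ((x : R p d) - y * s p d) p, h1]
  have h3 : ((x : R p d) - y * s p d) ^ p = x + y * s p d := by
    have : ((x : R p d) - y * s p d) = x + -(y : R p d) * s p d := by ring
    rw [this, h2]
    ring
  rw [h3]
  ring

/-- `p - 1` a power of two, `d` a residue. -/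
theorem exists_dvd_of_sub_one (hp2 : p ≠ 2) (hd : legendreSym p d = 1) (q : ℕ)
    (hq : p = 2 ^ q + 1) (x y : ℤ) (hy : ¬ (p : ℤ) ∣ y) (hN : ¬ (p : ℤ) ∣ x ^ 2 - d * y ^ 2) :
    ∃ i < q, (p : ℤ) ∣ ((⟨x, y⟩ : ℤ√d) ^ 2 ^ i).re := by
  have hd0 : ¬ (p : ℤ) ∣ d := by
    intro hc
    have : legendreSym p d = 0 := by
      rw [legendreSym.eq_zero_iff]
      exact (ZMod.intCast_zmod_eq_zero_iff_dvd d p).mpr hc
    rw [this] at hd
    norm_num at hd
  apply dvd_of_eq p d hp2 hd0 x y hy q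
  have h1 := frob p d hp2 x y
  have h2 := frob p d hp2 x (-y)
  rw [hd] at h1 h2
  push_cast at h1 h2
  set A : R p d := (x : R p d) + y * s p d with hA
  set B : R p d := (x : R p d) - y * s p d with hB
  have h1' : A ^ p = A := by rw [h1, hA]; ring
  have h2' : B ^ p = B := by
    have : B = x + -(y : R p d) * s p d := by rw [hB]; ring
    rw [this, h2]
    ring
  have hAB : A * B = ((x ^ 2 - d * y ^ 2 : ℤ) : R p d) := by
    rw [hA, hB]
    push_cast
    linear_combination (-(y : R p d) ^ 2) * s_mul p d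
  have hunit : IsUnit (A * B) := by
    rw [hAB]
    have h3 : IsUnit (((x ^ 2 - d * y ^ 2 : ℤ)) : ZMod p) := by
      rw [isUnit_iff_ne_zero]
      intro h
      exact hN ((ZMod.intCast_zmod_eq_zero_iff_dvd _ p).mp h)
    have h4 := h3.map (AdjoinRoot.of (X ^ 2 - C (d : ZMod p) : (ZMod p)[X]))
    rw [map_intCast] at h4
    exact h4
  have hAu : IsUnit A := isUnit_of_mul_isUnit_left hunit
  have hBu : IsUnit B := isUnit_of_mul_isUnit_right hunit
  have hA1 : A ^ 2 ^ q = 1 := by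
    have h5 : A ^ 2 ^ q * A = 1 * A := by
      rw [← pow_succ, ← hq, h1', one_mul]
    exact hAu.mul_right_cancel h5
  have hB1 : B ^ 2 ^ q = 1 := by
    have h5 : B ^ 2 ^ q * B = 1 * B := by
      rw [← pow_succ, ← hq, h2', one_mul]
    exact hBu.mul_right_cancel h5
  rw [hA1, hB1]

end

end Pool.Agent.H145R2.MD
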