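import Pool.Agent.H145R2.MD.Mers

/-!
Fermat primes and composite terms of the sequences `re ((x + y √d) ^ 2 ^ m)`.
-/

namespace Pool.Agent.H145R2.MD

lemma norm_eq (d x y : ℤ) (m : ℕ) :
    W d x y m ^ 2 - d * V d x y m ^ 2 = (x ^ 2 - d * y ^ 2) ^ 2 ^ m := by
  induction m with
  | zero => simp [W, V]
  | succ m ih =>
    rw [W_succ, V_succ, pow_succ 2 m, pow_mul, ← ih]
    ring

lemma W_rec (d x y : ℤ) (m : ℕ) :
    W d x y (m + 1) = 2 * W d x y m ^ 2 - (x ^ 2 - d * y ^ 2) ^ 2 ^ m := by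
  rw [W_succ, ← norm_eq]
  ring

lemma odd_pow_sub_one (N : ℤ) (hN : Odd N) (β : ℕ) (u : ℤ) (hu : Odd u)
    (h : N ^ 2 - 1 = 2 ^ β * u) (m : ℕ) :
    ∃ v : ℤ, Odd v ∧ N ^ 2 ^ (m + 1) - 1 = 2 ^ (β + m) * v := by
  induction m with
  | zero => exact ⟨u, hu, by simpa using h⟩
  | succ m ih =>
    obtain ⟨v, hv, hv2⟩ := ih
    obtain ⟨n, hn⟩ := hN.pow (n := 2 ^ m)
    have h1 : N ^ 2 ^ (m + 1) = (N ^ 2 ^ m) ^ 2 := by rw [pow_succ 2 m, pow_mul]
    have h2 : N ^ 2 ^ (m + 1) + 1 = 2 * (2 * (n ^ 2 + n) + 1) := by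
      rw [h1, hn]
      ring
    refine ⟨v * (2 * (n ^ 2 + n) + 1), hv.mul ⟨_, rfl⟩, ?_⟩
    have h3 : N ^ 2 ^ (m + 1 + 1) = (N ^ 2 ^ (m + 1)) ^ 2 := by rw [pow_succ 2 (m + 1), pow_mul]
    rw [h3]
    have h4 : (N ^ 2 ^ (m + 1)) ^ 2 - 1 = (N ^ 2 ^ (m + 1) - 1) * (N ^ 2 ^ (m + 1) + 1) := by ring
    rw [h4, hv2, h2]
    ring

lemma lower (d x y : ℤ) (hN : Odd (x ^ 2 - d * y ^ 2)) (β : ℕ) (hβ : 2 ≤ β) (u : ℤ) (hu : Odd u)
    (h : (x ^ 2 - d * y ^ 2) ^ 2 - 1 = 2 ^ β * u) (m : ℕ) :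
    ∃ s : ℤ, W d x y (m + 1) - 1 = 2 ^ (min (2 * m + 1) (β + m - 1)) * s := by
  induction m with
  | zero =>
    have h1 : min (2 * 0 + 1) (β + 0 - 1) = 1 := by omega
    rw [h1, W_rec]
    obtain ⟨n, hn⟩ := hN
    refine ⟨W d x y 0 ^ 2 - n - 1, ?_⟩
    rw [hn]
    ring
  | succ m ih =>
    obtain ⟨s, hs⟩ := ih
    obtain ⟨v, _, hv⟩ := odd_pow_sub_one _ hN β u hu h m
    have hWodd : ∃ w, W d x y (m + 1) + 1 = 2 * w := by
      have h5 : W d x y (m + 1) = 2 * W d x y m ^ 2 - (x ^ 2 - d * y ^ 2) ^ 2 ^ m := W_rec d x y m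
      obtain ⟨n, hn⟩ := hN.pow (n := 2 ^ m)
      rw [h5, hn]
      exact ⟨W d x y m ^ 2 - n, by ring⟩
    obtain ⟨w, hw⟩ := hWodd
    have h2 : W d x y (m + 1 + 1) - 1
        = 2 * (W d x y (m + 1) - 1) * (W d x y (m + 1) + 1)
          - ((x ^ 2 - d * y ^ 2) ^ 2 ^ (m + 1) - 1) := by
      rw [W_rec d x y (m + 1)]
      ring
    rw [h2, hs, hw, hv]
    obtain ⟨e1, he1⟩ := Nat.exists_eq_add_of_le
      (show min (2 * (m + 1) + 1) (β + (m + 1) - 1) ≤ min (2 * m + 1) (β + m - 1) + 2 by omega)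
    obtain ⟨e2, he2⟩ := Nat.exists_eq_add_of_le
      (show min (2 * (m + 1) + 1) (β + (m + 1) - 1) ≤ β + m by omega)
    refine ⟨2 ^ e1 * s * w - 2 ^ e2 * v, ?_⟩
    have h3 : (2 : ℤ) ^ (min (2 * m + 1) (β + m - 1)) * 4
        = 2 ^ (min (2 * (m + 1) + 1) (β + (m + 1) - 1)) * 2 ^ e1 := by
      rw [← pow_add, ← he1, pow_add]
      norm_num
    have h4 : (2 : ℤ) ^ (β + m) = 2 ^ (min (2 * (m + 1) + 1) (β + (m + 1) - 1)) * 2 ^ e2 := by
      rw [← pow_add, ← he2]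
    rw [h4]
    linear_combination (s * w) * h3

lemma exact (d x y : ℤ) (hN : Odd (x ^ 2 - d * y ^ 2)) (β : ℕ) (hβ : 2 ≤ β) (u : ℤ) (hu : Odd u)
    (h : (x ^ 2 - d * y ^ 2) ^ 2 - 1 = 2 ^ β * u) (m : ℕ) (hm : β ≤ m) :
    ∃ v : ℤ, Odd v ∧ W d x y (m + 2) - 1 = 2 ^ (β + m) * v := by
  obtain ⟨s, hs⟩ := lower d x y hN β hβ u hu h m
  obtain ⟨v, hv1, hv⟩ := odd_pow_sub_one _ hN β u hu h m
  have hWodd : ∃ w, W d x y (m + 1) + 1 = 2 * w := by
    have h5 : W d x y (m + 1) = 2 * W d x y m ^ 2 - (x ^ 2 - d * y ^ 2) ^ 2 ^ m := W_rec d x y m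
    obtain ⟨n, hn⟩ := hN.pow (n := 2 ^ m)
    rw [h5, hn]
    exact ⟨W d x y m ^ 2 - n, by ring⟩
  obtain ⟨w, hw⟩ := hWodd
  have h1 : min (2 * m + 1) (β + m - 1) = β + m - 1 := by omega
  rw [h1] at hs
  have h2 : W d x y (m + 1 + 1) - 1
      = 2 * (W d x y (m + 1) - 1) * (W d x y (m + 1) + 1)
        - ((x ^ 2 - d * y ^ 2) ^ 2 ^ (m + 1) - 1) := by
    rw [W_rec d x y (m + 1)]
    ring
  have h3 : (2 : ℤ) ^ (β + m) = 2 ^ (β + m - 1) * 2 := by
    rw [← pow_succ]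
    congr 1
    omega
  refine ⟨2 * (s * w) - v, ?_, ?_⟩
  · obtain ⟨v', hv'⟩ := hv1
    exact ⟨s * w - v' - 1, by rw [hv']; ring⟩
  · rw [show m + 2 = m + 1 + 1 by ring, h2, hs, hw, hv, h3]
    ring

lemma W_ge {d x y : ℤ} (hd : 0 < d) (hx : x ≠ 0) (hy : y ≠ 0) (m : ℕ) :
    2 ^ 2 ^ m ≤ W d x y (m + 1) := by
  induction m with
  | zero =>
    rw [W_succ]
    have h1 : 1 ≤ x ^ 2 := by
      have : 0 < x ^ 2 := by positivity
      omega
    have h2 : 1 ≤ y ^ 2 := by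
      have : 0 < y ^ 2 := by positivity
      omega
    have h3 : W d x y 0 = x := W_zero d x y
    have h4 : V d x y 0 = y := by simp [V]
    rw [h3, h4]
    norm_num
    nlinarith
  | succ m ih =>
    rw [W_succ]
    have h1 : 0 ≤ d * V d x y (m + 1) ^ 2 := by positivity
    have h2 : (2 : ℤ) ^ 2 ^ (m + 1) = (2 ^ 2 ^ m) ^ 2 := by rw [pow_succ 2 m, pow_mul]
    rw [h2]
    have h3 : (0 : ℤ) ≤ 2 ^ 2 ^ m := by positivity
    nlinarith

/-- The terms are Fermat numbers only finitely often. -/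
lemma ne_fermat {d x y : ℤ} (hd : 0 < d) (hx : x ≠ 0) (hy : y ≠ 0) :
    ∃ m₀ : ℕ, ∀ m, m₀ ≤ m → ∀ k : ℕ, 1 ≤ k → W d x y m ≠ 2 ^ 2 ^ k + 1 := by
  have heven : ∀ k : ℕ, 1 ≤ k → ∃ t : ℤ, (2 : ℤ) ^ 2 ^ k = 2 * t := by
    intro k _
    obtain ⟨e, he⟩ := Nat.exists_eq_add_of_le' (Nat.one_le_two_pow (n := k))
    exact ⟨2 ^ e, by rw [he, pow_succ]; ring⟩
  rcases Int.even_or_odd (x ^ 2 - d * y ^ 2) with hN | hN
  · refine ⟨1, ?_⟩
    intro m hm k hk hc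
    obtain ⟨n, rfl⟩ := Nat.exists_eq_add_of_le' hm
    rw [W_rec] at hc
    obtain ⟨t, ht⟩ := heven k hk
    have h1 : Even ((x ^ 2 - d * y ^ 2) ^ 2 ^ n) := hN.pow_of_ne_zero (by positivity)
    obtain ⟨r, hr⟩ := h1
    rw [ht, hr] at hc
    omega
  · by_cases h1 : (x ^ 2 - d * y ^ 2) ^ 2 = 1
    · refine ⟨3, ?_⟩
      intro m hm k hk hc
      obtain ⟨n, rfl⟩ := Nat.exists_eq_add_of_le' hm
      have h2 : (x ^ 2 - d * y ^ 2) ^ 2 ^ (n + 2) = 1 := by
        rw [show 2 ^ (n + 2) = 2 * 2 ^ (n + 1) by ring, pow_mul, h1, one_pow]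
      rw [show n + 3 = (n + 2) + 1 by ring, W_rec, h2] at hc
      have h3 : W d x y (n + 2) = 2 * W d x y (n + 1) ^ 2 - 1 := by
        rw [show n + 2 = (n + 1) + 1 by ring, W_rec]
        have : (x ^ 2 - d * y ^ 2) ^ 2 ^ (n + 1) = 1 := by
          rw [show 2 ^ (n + 1) = 2 * 2 ^ n by ring, pow_mul, h1, one_pow]
        rw [this]
      set j := W d x y (n + 1) ^ 2 with hj
      have hj1 : 4 ≤ j := by
        have h4 := W_ge (d := d) (x := x) (y := y) hd hx hy n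
        have h5 : (2 : ℤ) ≤ 2 ^ 2 ^ n := by
          calc (2 : ℤ) = 2 ^ 1 := by norm_num
            _ ≤ 2 ^ 2 ^ n := pow_le_pow_right₀ (by norm_num) Nat.one_le_two_pow
        nlinarith
      rw [h3] at hc
      have h6 : 8 * (j * (j - 1)) = 2 ^ 2 ^ k := by linear_combination hc
      have h7 : (j : ℤ) ∣ 2 ^ 2 ^ k := ⟨8 * (j - 1), by rw [← h6]; ring⟩
      have h8 : (j - 1 : ℤ) ∣ 2 ^ 2 ^ k := ⟨8 * j, by rw [← h6]; ring⟩
      rcases Int.even_or_odd j with he | ho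
      · have ho : Odd (j - 1) := by
          obtain ⟨r, hr⟩ := he
          exact ⟨r - 1, by rw [hr]; ring⟩
        have hcop : IsCoprime (j - 1) (2 ^ 2 ^ k) := by
          have : IsCoprime (j - 1) 2 := by
            obtain ⟨r, hr⟩ := ho
            exact ⟨1, -r, by rw [hr]; ring⟩
          exact this.pow_right
        have h9 := hcop.isUnit_of_dvd' dvd_rfl h8
        rcases Int.isUnit_iff.mp h9 with h10 | h10 <;> omega
      · have hcop : IsCoprime j (2 ^ 2 ^ k) := by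
          have : IsCoprime j 2 := by
            obtain ⟨r, hr⟩ := ho
            exact ⟨1, -r, by rw [hr]; ring⟩
          exact this.pow_right
        have h9 := hcop.isUnit_of_dvd' dvd_rfl h7
        rcases Int.isUnit_iff.mp h9 with h10 | h10 <;> omega
    · -- general odd norm
      set N := x ^ 2 - d * y ^ 2 with hNdef
      obtain ⟨n, hn⟩ := hN
      have h2 : N ^ 2 - 1 ≠ 0 := fun hc => h1 (by linarith)
      obtain ⟨t, ht⟩ := Int.eq_ofNat_of_zero_le (show 0 ≤ N ^ 2 - 1 by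
        have : 0 < N ^ 2 := by
          have : N ≠ 0 := by omega
          positivity
        omega)
      have ht0 : t ≠ 0 := by
        rintro rfl
        exact h2 (by simpa using ht)
      obtain ⟨β, u', hu', hβ'⟩ := Nat.exists_eq_two_pow_mul_odd ht0
      obtain ⟨u, hu, hβ⟩ : ∃ u : ℤ, Odd u ∧ N ^ 2 - 1 = 2 ^ β * u :=
        ⟨(u' : ℤ), by exact_mod_cast hu', by rw [ht, hβ']; push_cast; ring⟩
      have hβ2 : 2 ≤ β := by
        by_contra hc
        push Not at hc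
        have h3 : N ^ 2 - 1 = 4 * (n ^ 2 + n) := by rw [hn]; ring
        obtain ⟨r, hr⟩ := hu
        interval_cases β
        · rw [h3, hr] at hβ
          omega
        · rw [h3, hr] at hβ
          omega
      refine ⟨β + 4, ?_⟩
      intro m hm k hk hc
      obtain ⟨l, rfl⟩ := Nat.exists_eq_add_of_le' (show 2 ≤ m by omega)
      obtain ⟨v, hv, hv2⟩ := exact d x y ⟨n, hn⟩ β hβ2 u hu hβ l (by omega)
      have h4 : 2 ^ (β + l) * v = 2 ^ 2 ^ k := by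
        rw [← hv2, hc]
        ring
      have hcop : IsCoprime v (2 ^ 2 ^ k) := by
        have : IsCoprime v 2 := by
          obtain ⟨r, hr⟩ := hv
          exact ⟨1, -r, by rw [hr]; ring⟩
        exact this.pow_right
      have h5 := hcop.isUnit_of_dvd' dvd_rfl ⟨2 ^ (β + l), by rw [← h4]; ring⟩
      have h6 := W_ge (d := d) (x := x) (y := y) hd hx hy (l + 1)
      have h7 : (2 : ℤ) ^ (β + l + 1) ≤ 2 ^ 2 ^ (l + 1) := by
        apply pow_le_pow_right₀ (by norm_num)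
        have h8 : 2 * l + 2 ≤ 2 ^ (l + 1) := by
          have := Nat.lt_two_pow_self (n := l)
          rw [pow_succ]
          omega
        omega
      have h9 : W d x y (l + 1 + 1) - 1 ≤ 2 ^ (β + l) := by
        rw [show l + 1 + 1 = l + 2 by ring, hv2]
        have h10 : (0 : ℤ) < 2 ^ (β + l) := by positivity
        rcases Int.isUnit_iff.mp h5 with h11 | h11 <;> rw [h11] <;> linarith
      have h12 : (2 : ℤ) ^ (β + l + 1) = 2 * 2 ^ (β + l) := by rw [pow_succ]; ring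
      have h13 : (2 : ℤ) ≤ 2 ^ (β + l) := by
        calc (2 : ℤ) = 2 ^ 1 := by norm_num
          _ ≤ 2 ^ (β + l) := pow_le_pow_right₀ (by norm_num) (by omega)
      linarith

theorem manyComposite_of_infinite_fermat (d : ℕ) (hd : 0 < d)
    (h : {k : ℕ | (2 ^ 2 ^ k + 1).Prime ∧ IsSquare ((d : ℤ) : ZMod (2 ^ 2 ^ k + 1))}.Infinite) :
    ManyComposite d := by
  intro x y hx hy M
  have hd' : (0 : ℤ) < (d : ℤ) := by exact_mod_cast hd
  by_cases hN0 : x ^ 2 - (d : ℤ) * y ^ 2 = 0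
  · refine ⟨M + 2, by omega, 2, W d x y (M + 1) ^ 2, by norm_num, ?_, ?_⟩
    · have h1 := W_ge (d := (d : ℤ)) (x := x) (y := y) hd' hx hy M
      have h2 : (2 : ℤ) ≤ 2 ^ 2 ^ M := by
        calc (2 : ℤ) = 2 ^ 1 := by norm_num
          _ ≤ 2 ^ 2 ^ M := pow_le_pow_right₀ (by norm_num) Nat.one_le_two_pow
      nlinarith
    · change W d x y (M + 1 + 1) = _
      rw [W_rec, hN0, zero_pow (by positivity)]
      ring
  obtain ⟨m₀, hm₀⟩ := ne_fermat (d := (d : ℤ)) (x := x) (y := y) hd' hx hy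
  set M1 := max M (max m₀ 1) with hM1
  set B : ℕ := y.natAbs + (x ^ 2 - (d : ℤ) * y ^ 2).natAbs + d
    + ∑ i ∈ Finset.range M1, (W d x y i).natAbs + 3 with hB
  obtain ⟨k, hk, hBk⟩ := h.exists_gt B
  obtain ⟨hp, hs⟩ := hk
  have hkk : k < 2 ^ 2 ^ k := lt_of_lt_of_le Nat.lt_two_pow_self
    (Nat.pow_le_pow_right (by norm_num) (Nat.lt_two_pow_self).le)
  obtain ⟨p, hpdef⟩ : ∃ p : ℕ, p = 2 ^ 2 ^ k + 1 := ⟨_, rfl⟩
  rw [← hpdef] at hp hs
  have : Fact p.Prime := ⟨hp⟩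
  have small : ∀ t : ℤ, t ≠ 0 → t.natAbs ≤ B → ¬ (p : ℤ) ∣ t := by
    intro t ht htB hc
    have h1 := Nat.le_of_dvd (Int.natAbs_pos.mpr ht) (Int.natCast_dvd.mp hc)
    omega
  have hd0 : ((d : ℤ) : ZMod p) ≠ 0 := by
    intro hc
    rw [ZMod.intCast_zmod_eq_zero_iff_dvd] at hc
    exact small d (by omega) (by simp only [Int.natAbs_natCast]; omega) hc
  have hleg : legendreSym p (d : ℤ) = 1 := (legendreSym.eq_one_iff _ hd0).mpr hs
  obtain ⟨i, hi, hdvd⟩ := exists_dvd_of_sub_one p d (by omega) hleg (2 ^ k) hpdef x y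
    (small y hy (by omega)) (small _ hN0 (by omega))
  change (p : ℤ) ∣ W d x y i at hdvd
  have hiM : M1 ≤ i := by
    by_contra hc
    push Not at hc
    have h1 : (W d x y i).natAbs ≤ ∑ i ∈ Finset.range M1, (W d x y i).natAbs :=
      Finset.single_le_sum (f := fun i => (W d x y i).natAbs) (fun _ _ => Nat.zero_le _)
        (Finset.mem_range.mpr hc)
    exact small _ (W_ne_zero hd' hx i) (by omega) hdvd
  refine ⟨i, le_trans (le_max_left _ _) hiM, ?_⟩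
  have h2i : m₀ ≤ i := le_trans (le_trans (le_max_left _ _) (le_max_right _ _)) hiM
  have h1i : 1 ≤ i := le_trans (le_trans (le_max_right _ _) (le_max_right _ _)) hiM
  obtain ⟨c, hc⟩ := hdvd
  have hWpos := W_pos (y := y) hd' hx h1i
  have hMpos : (1 : ℤ) < (p : ℤ) := by
    have : 1 < p := hp.one_lt
    exact_mod_cast this
  refine ⟨_, c, hMpos, ?_, hc⟩
  have hcpos : 0 < c := by
    have h5 : 0 < (p : ℤ) * c := by rw [← hc]; exact hWpos
    exact (mul_pos_iff_of_pos_left (by omega)).mp h5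
  rcases lt_or_eq_of_le (show 1 ≤ c by omega) with h1 | h1
  · exact h1
  · exfalso
    rw [← h1, mul_one] at hc
    apply hm₀ i h2i k (by omega)
    rw [hc, hpdef]
    push_cast
    ring

lemma fermat_mod (k : ℕ) (hk : 2 ≤ k) : (2 ^ 2 ^ k + 1) % 8 = 1 ∧ (2 ^ 2 ^ k + 1) % 3 = 2 ∧
    (2 ^ 2 ^ k + 1) % 5 = 2 := by
  obtain ⟨n, rfl⟩ := Nat.exists_eq_add_of_le' hk
  have h : 2 ^ 2 ^ (n + 2) = 16 ^ 2 ^ n := by
    rw [show (16 : ℕ) = 2 ^ 4 by norm_num, ← pow_mul]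
    congr 1
    ring
  rw [h]
  obtain ⟨e, he⟩ := Nat.exists_eq_add_of_le' (Nat.one_le_two_pow (n := n))
  refine ⟨?_, ?_, ?_⟩
  · rw [he, pow_succ]
    omega
  · rw [Nat.add_mod, Nat.pow_mod]
    norm_num
  · rw [Nat.add_mod, Nat.pow_mod]
    norm_num

instance fact_five : Fact (Nat.Prime 5) := ⟨by norm_num⟩

lemma leg_three_five (p k : ℕ) [hpf : Fact p.Prime] (hk : 2 ≤ k) (hp : p = 2 ^ 2 ^ k + 1) (e : ℕ)
    (he : e = 3 ∨ e = 5) : legendreSym p (e : ℤ) = -1 := by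
  obtain ⟨h8, h3, h5⟩ := fermat_mod k hk
  rw [← hp] at h8 h3 h5
  rcases he with rfl | rfl
  · have hq := legendreSym.quadratic_reciprocity_one_mod_four (p := p) (q := 3) (by omega)
      (by norm_num)
    rw [← hq, legendreSym.mod]
    rw_mod_cast [h3]
    decide
  · have hq := legendreSym.quadratic_reciprocity_one_mod_four (p := p) (q := 5) (by omega)
      (by norm_num)
    rw [← hq, legendreSym.mod]
    rw_mod_cast [h5]
    decide

lemma leg_two (p k : ℕ) [hpf : Fact p.Prime] (hk : 2 ≤ k) (hp : p = 2 ^ 2 ^ k + 1) :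
    legendreSym p 2 = 1 := by
  obtain ⟨h8, h3, h5⟩ := fermat_mod k hk
  rw [← hp] at h8 h3 h5
  rw [legendreSym.at_two (by omega), ZMod.χ₈_nat_eq_if_mod_eight]
  simp [h8]
  omega

theorem mainF (hinf : {k : ℕ | (2 ^ 2 ^ k + 1).Prime}.Infinite) :
    ManyComposite 2 ∧
      ∀ d : ℕ, 0 < d → ManyComposite d ∨ (ManyComposite (3 * d) ∧ ManyComposite (5 * d)) := by
  constructor
  · apply manyComposite_of_infinite_fermat 2 (by norm_num)
    refine (hinf.sdiff (Set.finite_le_nat 2)).mono ?_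
    rintro k ⟨hk, hk2⟩
    have hk : (2 ^ 2 ^ k + 1).Prime := hk
    have hk2 : ¬ k ≤ 2 := hk2
    have hkk : k < 2 ^ 2 ^ k := lt_of_lt_of_le Nat.lt_two_pow_self
      (Nat.pow_le_pow_right (by norm_num) (Nat.lt_two_pow_self).le)
    refine ⟨hk, ?_⟩
    obtain ⟨p, hpdef⟩ : ∃ p : ℕ, p = 2 ^ 2 ^ k + 1 := ⟨_, rfl⟩
    rw [← hpdef] at hk ⊢
    have : Fact p.Prime := ⟨hk⟩
    have h1 := leg_two p k (by omega) hpdef
    have h0 : (((2 : ℕ) : ℤ) : ZMod p) ≠ 0 := by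
      intro hc
      rw [ZMod.intCast_zmod_eq_zero_iff_dvd] at hc
      have h3 : p ∣ 2 := by exact_mod_cast hc
      have := Nat.le_of_dvd (by norm_num) h3
      omega
    exact (legendreSym.eq_one_iff p h0).mp (by exact_mod_cast h1)
  · intro d hd
    by_cases hfin : {k : ℕ | (2 ^ 2 ^ k + 1).Prime ∧
        IsSquare ((d : ℤ) : ZMod (2 ^ 2 ^ k + 1))}.Infinite
    · left
      exact manyComposite_of_infinite_fermat d hd hfin
    right
    have key : ∀ e : ℕ, (e = 3 ∨ e = 5) → ManyComposite (e * d) := by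
      intro e he
      apply manyComposite_of_infinite_fermat (e * d) (by rcases he with rfl | rfl <;> omega)
      rw [Set.not_infinite] at hfin
      refine (hinf.sdiff ((Set.finite_le_nat (d + 5)).union hfin)).mono ?_
      rintro k ⟨hk, hk2⟩
      have hk : (2 ^ 2 ^ k + 1).Prime := hk
      have hk3 : ¬ k ≤ d + 5 := fun h => hk2 (Or.inl h)
      have hns : ¬ IsSquare ((d : ℤ) : ZMod (2 ^ 2 ^ k + 1)) := fun h => hk2 (Or.inr ⟨hk, h⟩)
      have hkk : k < 2 ^ 2 ^ k := lt_of_lt_of_le Nat.lt_two_pow_self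
        (Nat.pow_le_pow_right (by norm_num) (Nat.lt_two_pow_self).le)
      refine ⟨hk, ?_⟩
      obtain ⟨p, hpdef⟩ : ∃ p : ℕ, p = 2 ^ 2 ^ k + 1 := ⟨_, rfl⟩
      rw [← hpdef] at hk hns ⊢
      have : Fact p.Prime := ⟨hk⟩
      have h1 := leg_three_five p k (by omega) hpdef e he
      have h2 : legendreSym p (d : ℤ) = -1 := (legendreSym.eq_neg_one_iff p).mpr hns
      have h3 : legendreSym p (((e * d : ℕ)) : ℤ) = 1 := by
        push_cast
        rw [legendreSym.mul, h1, h2]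
        norm_num
      have h0 : (((e * d : ℕ) : ℤ) : ZMod p) ≠ 0 := by
        intro hc
        have h4 : legendreSym p (((e * d : ℕ)) : ℤ) = 0 := (legendreSym.eq_zero_iff p _).mpr hc
        rw [h4] at h3
        norm_num at h3
      exact (legendreSym.eq_one_iff p h0).mp h3
    exact ⟨key 3 (Or.inl rfl), key 5 (Or.inr rfl)⟩

end Pool.Agent.H145R2.MD
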