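import Pool.Agent.H145R2.MD.Core

/-!
Mersenne primes and composite terms of the sequences `re ((x + y √d) ^ 2 ^ m)`.
-/

namespace Pool.Agent.H145R2.MD

/-- The rational part `W_m` of `(x + y √d) ^ 2 ^ m`. -/
def W (d x y : ℤ) (m : ℕ) : ℤ := ((⟨x, y⟩ : ℤ√d) ^ 2 ^ m).re

/-- The irrational part. -/
def V (d x y : ℤ) (m : ℕ) : ℤ := ((⟨x, y⟩ : ℤ√d) ^ 2 ^ m).im

lemma W_zero (d x y : ℤ) : W d x y 0 = x := by simp [W]

lemma W_succ (d x y : ℤ) (m : ℕ) : W d x y (m + 1) = W d x y m ^ 2 + d * V d x y m ^ 2 := by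
  unfold W V
  rw [pow_succ 2 m, pow_mul, pow_two (((⟨x, y⟩ : ℤ√d)) ^ 2 ^ m), Zsqrtd.re_mul]
  ring

lemma V_succ (d x y : ℤ) (m : ℕ) : V d x y (m + 1) = 2 * (W d x y m * V d x y m) := by
  unfold W V
  rw [pow_succ 2 m, pow_mul, pow_two (((⟨x, y⟩ : ℤ√d)) ^ 2 ^ m), Zsqrtd.im_mul]
  ring

lemma W_ne_zero {d x y : ℤ} (hd : 0 < d) (hx : x ≠ 0) (m : ℕ) : W d x y m ≠ 0 := by
  induction m with
  | zero => rwa [W_zero]
  | succ m ih =>
    rw [W_succ]
    have h1 : 0 < W d x y m ^ 2 := by positivity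
    have h2 : 0 ≤ d * V d x y m ^ 2 := by positivity
    omega

lemma W_pos {d x y : ℤ} (hd : 0 < d) (hx : x ≠ 0) {m : ℕ} (hm : 1 ≤ m) : 0 < W d x y m := by
  obtain ⟨n, rfl⟩ := Nat.exists_eq_add_of_le' hm
  rw [W_succ]
  have h1 : 0 < W d x y n ^ 2 := by
    have := W_ne_zero (y := y) hd hx n
    positivity
  have h2 : 0 ≤ d * V d x y n ^ 2 := by positivity
  omega

lemma W_mod {d x y : ℤ} {m : ℕ} (hm : 2 ≤ m) : W d x y m % 4 ≠ 3 := by
  obtain ⟨n, rfl⟩ := Nat.exists_eq_add_of_le' hm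
  rw [show n + 2 = (n + 1) + 1 by ring, W_succ, V_succ]
  have h : W d x y (n + 1) ^ 2 + d * (2 * (W d x y n * V d x y n)) ^ 2
      = W d x y (n + 1) ^ 2 + 4 * (d * (W d x y n * V d x y n) ^ 2) := by ring
  rw [h, Int.add_mul_emod_self_left]
  rcases Int.emod_two_eq_zero_or_one (W d x y (n + 1)) with h1 | h1
  · obtain ⟨k, hk⟩ : ∃ k, W d x y (n + 1) = 2 * k := ⟨W d x y (n + 1) / 2, by omega⟩
    rw [hk]
    have : (2 * k) ^ 2 = 4 * k ^ 2 := by ring
    omega
  · obtain ⟨k, hk⟩ : ∃ k, W d x y (n + 1) = 2 * k + 1 := ⟨W d x y (n + 1) / 2, by omega⟩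
    rw [hk]
    have : (2 * k + 1) ^ 2 = 4 * (k ^ 2 + k) + 1 := by ring
    omega

/-- For all nonzero integers `x`, `y` infinitely many `re ((x + y √d) ^ 2 ^ m)` are composite. -/
def ManyComposite (d : ℕ) : Prop :=
  ∀ x y : ℤ, x ≠ 0 → y ≠ 0 → ∀ M : ℕ, ∃ m, M ≤ m ∧ ∃ b c : ℤ, 1 < b ∧ 1 < c ∧
    ((⟨x, y⟩ : ℤ√(d : ℤ)) ^ 2 ^ m).re = b * c

theorem manyComposite_of_infinite (d : ℕ) (hd : 0 < d)
    (h : {q : ℕ | (mersenne q).Prime ∧ ¬ IsSquare ((d : ℤ) : ZMod (mersenne q))}.Infinite) :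
    ManyComposite d := by
  intro x y hx hy M
  have hd' : (0 : ℤ) < (d : ℤ) := by exact_mod_cast hd
  set M1 := max M 2 with hM1
  set B : ℕ := y.natAbs + ∑ i ∈ Finset.range M1, (W d x y i).natAbs + 3 with hB
  obtain ⟨q, hq, hBq⟩ := h.exists_gt B
  obtain ⟨hp, hns⟩ := hq
  have : Fact (mersenne q).Prime := ⟨hp⟩
  have hqM : q ≤ mersenne q := by
    unfold mersenne
    have := Nat.lt_two_pow_self (n := q)
    omega
  have hleg : legendreSym (mersenne q) (d : ℤ) = -1 := by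
    rw [legendreSym.eq_neg_one_iff]
    exact hns
  have hp2 : mersenne q ≠ 2 := by omega
  have hq1 : mersenne q + 1 = 2 ^ q := by
    unfold mersenne
    have := Nat.one_le_two_pow (n := q)
    omega
  have hydvd : ¬ ((mersenne q : ℕ) : ℤ) ∣ y := by
    intro hc
    have h1 := Nat.le_of_dvd (by omega) (Int.natCast_dvd.mp hc)
    omega
  obtain ⟨i, hi, hdvd⟩ := exists_dvd_of_add_one (mersenne q) d hp2 hleg q hq1 x y hydvd
  change ((mersenne q : ℕ) : ℤ) ∣ W d x y i at hdvd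
  have hiM : M1 ≤ i := by
    by_contra hc
    push Not at hc
    have h1 : (W d x y i).natAbs ≤ ∑ i ∈ Finset.range M1, (W d x y i).natAbs :=
      Finset.single_le_sum (f := fun i => (W d x y i).natAbs) (fun _ _ => Nat.zero_le _)
        (Finset.mem_range.mpr hc)
    have h2 := Nat.le_of_dvd (Int.natAbs_pos.mpr (W_ne_zero hd' hx i)) (Int.natCast_dvd.mp hdvd)
    omega
  refine ⟨i, le_trans (le_max_left _ _) hiM, ?_⟩
  have h2i : 2 ≤ i := le_trans (le_max_right _ _) hiM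
  obtain ⟨c, hc⟩ := hdvd
  have hWpos := W_pos (y := y) hd' hx (show 1 ≤ i by omega)
  have hMpos : (1 : ℤ) < ((mersenne q : ℕ) : ℤ) := by
    have : 1 < mersenne q := by omega
    exact_mod_cast this
  refine ⟨_, c, hMpos, ?_, hc⟩
  have hcpos : 0 < c := by
    have h5 : 0 < ((mersenne q : ℕ) : ℤ) * c := by rw [← hc]; exact hWpos
    exact (mul_pos_iff_of_pos_left (by omega)).mp h5
  rcases lt_or_eq_of_le (show 1 ≤ c by omega) with h1 | h1
  · exact h1
  · exfalso
    rw [← h1, mul_one] at hc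
    have h3 := W_mod (d := d) (x := x) (y := y) h2i
    apply h3
    rw [hc]
    have h4 : ((mersenne q : ℕ) : ℤ) = 2 ^ q - 1 := by
      have : ((mersenne q + 1 : ℕ) : ℤ) = ((2 ^ q : ℕ) : ℤ) := by rw [hq1]
      push_cast at this
      linarith
    rw [h4]
    obtain ⟨r, hr⟩ := Nat.exists_eq_add_of_le' (show 2 ≤ q by omega)
    rw [hr, pow_add]
    norm_num

lemma leg_three_six (q : ℕ) [Fact (mersenne q).Prime] (hq : 3 ≤ q) (e : ℕ) (he : e = 3 ∨ e = 6) :
    legendreSym (mersenne q) (e : ℤ) = -1 := by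
  have hqp : q.Prime := Nat.Prime.of_mersenne (Fact.out)
  have hodd : Odd q := hqp.odd_of_ne_two (by omega)
  have h3 := legendreSym_mersenne_three hq hodd
  have h2 := legendreSym_mersenne_two (p := q) hq
  rcases he with rfl | rfl
  · exact_mod_cast h3
  · have : ((6 : ℕ) : ℤ) = 2 * 3 := by norm_num
    rw [this, legendreSym.mul, h2, h3]
    norm_num

theorem main (hinf : {q : ℕ | (mersenne q).Prime}.Infinite) :
    ManyComposite 3 ∧ ManyComposite 6 ∧
      ∀ d : ℕ, 0 < d → ManyComposite d ∨ (ManyComposite (3 * d) ∧ ManyComposite (6 * d)) := by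
  have key : ∀ d : ℕ, 0 < d →
      {q : ℕ | (mersenne q).Prime ∧ ¬ IsSquare ((d : ℤ) : ZMod (mersenne q))}.Infinite ∨
      ∀ e : ℕ, (e = 3 ∨ e = 6) → {q : ℕ | (mersenne q).Prime ∧
        ¬ IsSquare (((e * d : ℕ) : ℤ) : ZMod (mersenne q))}.Infinite := by
    intro d hd
    by_cases hfin : {q : ℕ | (mersenne q).Prime ∧
        ¬ IsSquare ((d : ℤ) : ZMod (mersenne q))}.Infinite
    · exact Or.inl hfin
    right
    intro e he
    rw [Set.not_infinite] at hfin
    have h1 : ({q : ℕ | (mersenne q).Prime} \ ({q : ℕ | q ≤ d + 3} ∪ {q : ℕ | (mersenne q).Prime ∧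
        ¬ IsSquare ((d : ℤ) : ZMod (mersenne q))})).Infinite :=
      hinf.sdiff ((Set.finite_le_nat _).union hfin)
    refine h1.mono ?_
    rintro q ⟨hq, hq2⟩
    have hq : (mersenne q).Prime := hq
    have hq3 : ¬ q ≤ d + 3 := fun h => hq2 (Or.inl h)
    have hs : IsSquare ((d : ℤ) : ZMod (mersenne q)) := by
      by_contra h
      exact hq2 (Or.inr ⟨hq, h⟩)
    have : Fact (mersenne q).Prime := ⟨hq⟩
    have hqM : q ≤ mersenne q := by
      unfold mersenne
      have := Nat.lt_two_pow_self (n := q)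
      omega
    refine ⟨hq, ?_⟩
    have hd0 : ((d : ℤ) : ZMod (mersenne q)) ≠ 0 := by
      intro hc
      rw [ZMod.intCast_zmod_eq_zero_iff_dvd] at hc
      have h3 : mersenne q ∣ d := by exact_mod_cast hc
      have := Nat.le_of_dvd hd h3
      omega
    have h4 : legendreSym (mersenne q) (d : ℤ) = 1 := (legendreSym.eq_one_iff _ hd0).mpr hs
    have h5 := leg_three_six q (by omega) e he
    rw [← legendreSym.eq_neg_one_iff]
    push_cast
    rw [legendreSym.mul, h5, h4]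
    norm_num
  have h3 : ∀ e : ℕ, (e = 3 ∨ e = 6) → ManyComposite e := by
    intro e he
    rcases key 1 one_pos with h | h
    · exfalso
      apply h
      convert Set.finite_empty
      ext q
      simp
    · have h := h e he
      rw [mul_one] at h
      exact manyComposite_of_infinite e (by omega) h
  refine ⟨h3 3 (Or.inl rfl), h3 6 (Or.inr rfl), ?_⟩
  intro d hd
  rcases key d hd with h | h
  · left
    exact manyComposite_of_infinite d hd h
  · right
    exact ⟨manyComposite_of_infinite (3 * d) (by omega) (h 3 (Or.inl rfl)),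
      manyComposite_of_infinite (6 * d) (by omega) (h 6 (Or.inr rfl))⟩

end Pool.Agent.H145R2.MD
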